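import Pool.Agent.L0h20.AS.Stm

set_option autoImplicit false

/-!
# Bounded-depth proofs over symmetric formulas, module SDM: the depth above a larger set
-/

namespace Pool.Agent.L0h91.AS

open Pool.Agent.L0h20.AS
open Pool.Agent.L0h36.BG hiding orL andL

theorem sdm_at {p : ℕ} {α : Type} {At : Set (Fml p α)} {φ : Fml p α} (h : φ ∈ At) :
    sdepth At φ = 0 := by
  cases φ with
  | var x => rfl
  | neg φ => rw [sdepth, if_pos h]
  | and k f => rw [sdepth, if_pos h]
  | or k f => rw [sdepth, if_pos h]
  | mod i k f => rw [sdepth, if_pos h]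

open Classical in
/-- **SDM** -/
theorem t_SDM : S_SDM := by
  intro p α S At hA hS φ
  induction φ with
  | var x => exact le_refl _
  | neg φ ih =>
    by_cases h : Fml.neg φ ∈ At
    · rw [sdm_at h]
      exact Nat.zero_le _
    · have h1 : φ ∉ At := fun h' => h ((hA.1 φ).2 h')
      have h2 : φ ∉ S := fun h' => h1 (hS h')
      have h3 : Fml.neg φ ∉ S := fun h' => h (hS h')
      rw [sdepth, sdepth, if_neg h, if_neg h3]
      by_cases hn : φ.isNeg = true
      · rw [if_pos ⟨hn, h1⟩, if_pos ⟨hn, h2⟩]
        exact ih
      · rw [if_neg (fun h' => hn h'.1), if_neg (fun h' => hn h'.1)]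
        omega
  | and k f ih =>
    by_cases h : Fml.and k f ∈ At
    · rw [sdm_at h]
      exact Nat.zero_le _
    · have h3 : Fml.and k f ∉ S := fun h' => h (hS h')
      rw [sdepth, sdepth, if_neg h, if_neg h3]
      refine max_le (le_max_left _ _) (Finset.sup_le fun j _ => ?_)
      have hj := Finset.le_sup (f := fun j =>
        if (f j).isAnd = true ∧ f j ∉ S then sdepth S (f j) else sdepth S (f j) + 1)
        (Finset.mem_univ j)
      by_cases hn : (f j).isAnd = true
      · by_cases ha : f j ∈ At
        · rw [if_neg (fun h' => h'.2 ha), sdm_at ha]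
          exact le_max_left _ _
        · rw [if_pos ⟨hn, ha⟩]
          rw [if_pos ⟨hn, fun h' => ha (hS h')⟩] at hj
          exact ((ih j).trans hj).trans (le_max_right _ _)
      · rw [if_neg (fun h' => hn h'.1)]
        rw [if_neg (fun h' => hn h'.1)] at hj
        exact ((Nat.add_le_add_right (ih j) 1).trans hj).trans (le_max_right _ _)
  | or k f ih =>
    by_cases h : Fml.or k f ∈ At
    · rw [sdm_at h]
      exact Nat.zero_le _
    · have h3 : Fml.or k f ∉ S := fun h' => h (hS h')
      rw [sdepth, sdepth, if_neg h, if_neg h3]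
      refine max_le (le_max_left _ _) (Finset.sup_le fun j _ => ?_)
      have hj := Finset.le_sup (f := fun j =>
        if (f j).isOr = true ∧ f j ∉ S then sdepth S (f j) else sdepth S (f j) + 1)
        (Finset.mem_univ j)
      by_cases hn : (f j).isOr = true
      · by_cases ha : f j ∈ At
        · rw [if_neg (fun h' => h'.2 ha), sdm_at ha]
          exact le_max_left _ _
        · rw [if_pos ⟨hn, ha⟩]
          rw [if_pos ⟨hn, fun h' => ha (hS h')⟩] at hj
          exact ((ih j).trans hj).trans (le_max_right _ _)
      · rw [if_neg (fun h' => hn h'.1)]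
        rw [if_neg (fun h' => hn h'.1)] at hj
        exact ((Nat.add_le_add_right (ih j) 1).trans hj).trans (le_max_right _ _)
  | mod i k f ih =>
    by_cases h : Fml.mod i k f ∈ At
    · rw [sdm_at h]
      exact Nat.zero_le _
    · have h3 : Fml.mod i k f ∉ S := fun h' => h (hS h')
      rw [sdepth, sdepth, if_neg h, if_neg h3]
      exact Nat.add_le_add_right (Finset.sup_mono_fun fun j _ => ih j) 1

end Pool.Agent.L0h91.AS
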