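import Pool.Agent.L0h20.AS.Stm

set_option autoImplicit false
set_option linter.unusedSectionVars false

/-!
# Bounded-depth proofs over symmetric formulas, module STG: all stages of the evaluation
-/

namespace Pool.Agent.L0h91.AS

open Finset Pool.Agent.L0h36.BF Pool.Agent.L0h20.AS
open Pool.Agent.L0h36.BG hiding orL andL

/-! ### The depth above the atoms -/

section depth

variable {p : ℕ} {α : Type} {At : Set (Fml p α)}

theorem sdepth_at {φ : Fml p α} (h : φ ∈ At) : sdepth At φ = 0 := by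
  cases φ with
  | var x => rfl
  | neg φ => rw [sdepth, if_pos h]
  | and k f => rw [sdepth, if_pos h]
  | or k f => rw [sdepth, if_pos h]
  | mod i k f => rw [sdepth, if_pos h]

/-- the formulas of depth zero are variables or atoms -/
theorem sdepth_pos (hA : Atomic At) {φ : Fml p α} (h : φ ∉ At) :
    (∃ x, φ = .var x) ∨ 1 ≤ sdepth At φ := by
  induction φ with
  | var x => exact Or.inl ⟨x, rfl⟩
  | neg φ ih =>
    right
    rw [sdepth, if_neg h]
    have h1 : φ ∉ At := fun h' => h ((hA.1 φ).2 h')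
    split_ifs with h2
    · rcases ih h1 with ⟨x, hx⟩ | h3
      · rw [hx] at h2
        exact absurd h2.1 (by simp [Fml.isNeg])
      · exact h3
    · omega
  | and k f ih =>
    right
    rw [sdepth, if_neg h]
    exact le_max_left _ _
  | or k f ih =>
    right
    rw [sdepth, if_neg h]
    exact le_max_left _ _
  | mod i k f ih =>
    right
    rw [sdepth, if_neg h]
    omega

theorem sdepth_le_neg (hA : Atomic At) (φ : Fml p α) : sdepth At φ ≤ sdepth At (.neg φ) := by
  by_cases h : Fml.neg φ ∈ At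
  · rw [sdepth_at ((hA.1 φ).1 h)]
    omega
  · rw [sdepth, if_neg h]
    split_ifs <;> omega

open Classical in
theorem sdepth_le_and (hA : Atomic At) {k : ℕ} (f : Fin k → Fml p α) (j : Fin k) :
    sdepth At (f j) ≤ sdepth At (.and k f) := by
  by_cases h : Fml.and k f ∈ At
  · rw [sdepth_at (hA.2.1 k f h j)]
    omega
  · rw [sdepth, if_neg h]
    refine le_trans ?_ (le_max_right _ _)
    refine le_trans ?_ (Finset.le_sup (f := fun j =>
      if (f j).isAnd = true ∧ f j ∉ At then sdepth At (f j) else sdepth At (f j) + 1)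
      (Finset.mem_univ j))
    split_ifs <;> omega

open Classical in
theorem sdepth_le_or (hA : Atomic At) {k : ℕ} (f : Fin k → Fml p α) (j : Fin k) :
    sdepth At (f j) ≤ sdepth At (.or k f) := by
  by_cases h : Fml.or k f ∈ At
  · rw [sdepth_at (hA.2.2.1 k f h j)]
    omega
  · rw [sdepth, if_neg h]
    refine le_trans ?_ (le_max_right _ _)
    refine le_trans ?_ (Finset.le_sup (f := fun j =>
      if (f j).isOr = true ∧ f j ∉ At then sdepth At (f j) else sdepth At (f j) + 1)
      (Finset.mem_univ j))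
    split_ifs <;> omega

theorem sdepth_lt_mod {i : ZMod p} {k : ℕ} (f : Fin k → Fml p α) (j : Fin k)
    (h : Fml.mod i k f ∉ At) : sdepth At (f j) + 1 ≤ sdepth At (.mod i k f) := by
  rw [sdepth, if_neg h]
  exact Nat.add_le_add_right (Finset.le_sup (f := fun j => sdepth At (f j)) (Finset.mem_univ j)) 1

theorem orL_self {φ : Fml p α} (h : φ.isOr = false ∨ φ ∈ At) : orL At φ = {φ} := by
  cases φ with
  | or k f =>
    rcases h with h | h
    · simp [Fml.isOr] at h
    · rw [orL, if_pos h]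
  | var x => rfl
  | neg φ => rfl
  | and k f => rfl
  | mod i k f => rfl

theorem andL_self {φ : Fml p α} (h : φ.isAnd = false ∨ φ ∈ At) : andL At φ = {φ} := by
  cases φ with
  | and k f =>
    rcases h with h | h
    · simp [Fml.isAnd] at h
    · rw [andL, if_pos h]
  | var x => rfl
  | neg φ => rfl
  | or k f => rfl
  | mod i k f => rfl

theorem orL_or {k : ℕ} {f : Fin k → Fml p α} (h : Fml.or k f ∉ At) :
    orL At (.or k f) = ⋃ j, orL At (f j) := by
  rw [orL, if_neg h]

theorem andL_and {k : ℕ} {f : Fin k → Fml p α} (h : Fml.and k f ∉ At) :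
    andL At (.and k f) = ⋃ j, andL At (f j) := by
  rw [andL, if_neg h]

open Classical in
theorem depth_orL {φ ξ : Fml p α} (h : ξ ∈ orL At φ) :
    ((φ.isOr = true ∧ φ ∉ At) → sdepth At ξ + 1 ≤ sdepth At φ) ∧
      (¬ (φ.isOr = true ∧ φ ∉ At) → ξ = φ) := by
  induction φ with
  | var x => exact ⟨fun h' => absurd h'.1 (by simp [Fml.isOr]), fun _ => h⟩
  | neg φ ih => exact ⟨fun h' => absurd h'.1 (by simp [Fml.isOr]), fun _ => h⟩
  | and k f ih => exact ⟨fun h' => absurd h'.1 (by simp [Fml.isOr]), fun _ => h⟩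
  | mod i k f ih => exact ⟨fun h' => absurd h'.1 (by simp [Fml.isOr]), fun _ => h⟩
  | or k f ih =>
    by_cases hs : Fml.or k f ∈ At
    · rw [orL_self (Or.inr hs), Set.mem_singleton_iff] at h
      exact ⟨fun h' => absurd hs h'.2, fun _ => h⟩
    rw [orL_or hs, Set.mem_iUnion] at h
    obtain ⟨j, hj⟩ := h
    obtain ⟨h2, h3⟩ := ih j hj
    refine ⟨fun _ => ?_, fun h' => absurd ⟨rfl, hs⟩ h'⟩
    have h4 : (if (f j).isOr = true ∧ f j ∉ At then sdepth At (f j) else sdepth At (f j) + 1) ≤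
        sdepth At (.or k f) := by
      rw [sdepth, if_neg hs]
      exact le_trans (Finset.le_sup (f := fun j =>
        if (f j).isOr = true ∧ f j ∉ At then sdepth At (f j) else sdepth At (f j) + 1)
        (Finset.mem_univ j)) (le_max_right _ _)
    by_cases hor : (f j).isOr = true ∧ f j ∉ At
    · rw [if_pos hor] at h4
      exact (h2 hor).trans h4
    · rw [if_neg hor] at h4
      rw [h3 hor]
      exact h4

open Classical in
theorem depth_andL {φ ξ : Fml p α} (h : ξ ∈ andL At φ) :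
    ((φ.isAnd = true ∧ φ ∉ At) → sdepth At ξ + 1 ≤ sdepth At φ) ∧
      (¬ (φ.isAnd = true ∧ φ ∉ At) → ξ = φ) := by
  induction φ with
  | var x => exact ⟨fun h' => absurd h'.1 (by simp [Fml.isAnd]), fun _ => h⟩
  | neg φ ih => exact ⟨fun h' => absurd h'.1 (by simp [Fml.isAnd]), fun _ => h⟩
  | or k f ih => exact ⟨fun h' => absurd h'.1 (by simp [Fml.isAnd]), fun _ => h⟩
  | mod i k f ih => exact ⟨fun h' => absurd h'.1 (by simp [Fml.isAnd]), fun _ => h⟩
  | and k f ih =>
    by_cases hs : Fml.and k f ∈ At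
    · rw [andL_self (Or.inr hs), Set.mem_singleton_iff] at h
      exact ⟨fun h' => absurd hs h'.2, fun _ => h⟩
    rw [andL_and hs, Set.mem_iUnion] at h
    obtain ⟨j, hj⟩ := h
    obtain ⟨h2, h3⟩ := ih j hj
    refine ⟨fun _ => ?_, fun h' => absurd ⟨rfl, hs⟩ h'⟩
    have h4 : (if (f j).isAnd = true ∧ f j ∉ At then sdepth At (f j) else sdepth At (f j) + 1) ≤
        sdepth At (.and k f) := by
      rw [sdepth, if_neg hs]
      exact le_trans (Finset.le_sup (f := fun j =>
        if (f j).isAnd = true ∧ f j ∉ At then sdepth At (f j) else sdepth At (f j) + 1)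
        (Finset.mem_univ j)) (le_max_right _ _)
    by_cases hor : (f j).isAnd = true ∧ f j ∉ At
    · rw [if_pos hor] at h4
      exact (h2 hor).trans h4
    · rw [if_neg hor] at h4
      rw [h3 hor]
      exact h4

theorem closed_orL {Γ : Set (Fml p α)} (h : ClosedS Γ) {φ ξ : Fml p α} (hφ : φ ∈ Γ)
    (hξ : ξ ∈ orL At φ) : ξ ∈ Γ := by
  induction φ with
  | var x => rw [orL, Set.mem_singleton_iff] at hξ; exact hξ ▸ hφ
  | neg φ ih => rw [orL, Set.mem_singleton_iff] at hξ; exact hξ ▸ hφ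
  | and k f ih => rw [orL, Set.mem_singleton_iff] at hξ; exact hξ ▸ hφ
  | mod i k f ih => rw [orL, Set.mem_singleton_iff] at hξ; exact hξ ▸ hφ
  | or k f ih =>
    by_cases hs : Fml.or k f ∈ At
    · rw [orL_self (Or.inr hs), Set.mem_singleton_iff] at hξ
      exact hξ ▸ hφ
    rw [orL_or hs, Set.mem_iUnion] at hξ
    obtain ⟨j, hj⟩ := hξ
    exact ih j (h.2.2.1 k f hφ j) hj

theorem closed_andL {Γ : Set (Fml p α)} (h : ClosedS Γ) {φ ξ : Fml p α}
    (hφ : φ ∈ Γ) (hξ : ξ ∈ andL At φ) : ξ ∈ Γ := by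
  induction φ with
  | var x => rw [andL, Set.mem_singleton_iff] at hξ; exact hξ ▸ hφ
  | neg φ ih => rw [andL, Set.mem_singleton_iff] at hξ; exact hξ ▸ hφ
  | or k f ih => rw [andL, Set.mem_singleton_iff] at hξ; exact hξ ▸ hφ
  | mod i k f ih => rw [andL, Set.mem_singleton_iff] at hξ; exact hξ ▸ hφ
  | and k f ih =>
    by_cases hs : Fml.and k f ∈ At
    · rw [andL_self (Or.inr hs), Set.mem_singleton_iff] at hξ
      exact hξ ▸ hφ
    rw [andL_and hs, Set.mem_iUnion] at hξ
    obtain ⟨j, hj⟩ := hξ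
    exact ih j (h.2.1 k f hφ j) hj

end depth

variable {V : Type} [DecidableEq V] {p : ℕ}

/-- A branch over a smaller system which is compatible with a larger system is a branch over the
larger system. -/
theorem br_extend {q : ℕ} {T : DT V} {m r : Finset (Finset V)} {b : Bool} (h : Br q T m r b)
    (s : Finset (Finset V)) (hms : m ⊆ s) (hs : PM q (s ∪ r)) : Br q T s (s ∪ r) b := by
  induction h generalizing s with
  | leaf b m =>
    rw [Finset.union_eq_left.2 hms]
    exact Br.leaf _ _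
  | covered v c m r b e he hv h ih =>
    exact Br.covered v c s _ b e (hms he) hv (ih s hms hs)
  | query v c m r b e hv' hv hpm h ih =>
    have her : e ∈ r := h.subset (Finset.mem_insert_self _ _)
    by_cases hvs : v ∈ cov s
    · obtain ⟨f, hf, hvf⟩ := mem_cov.1 hvs
      have : e = f := hs.eq_of_mem (Finset.mem_union_right _ her) (Finset.mem_union_left _ hf)
        hv hvf
      subst this
      exact Br.covered v c s _ b e hf hv (ih s (Finset.insert_subset hf hms) hs)
    · have h1 : insert e s ∪ r = s ∪ r := by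
        rw [Finset.insert_union, Finset.insert_eq_of_mem (Finset.mem_union_right _ her)]
      have h2 := ih (insert e s) (Finset.insert_subset_insert _ hms) (by rw [h1]; exact hs)
      rw [h1] at h2
      refine Br.query v c s _ b e hvs hv (hs.mono ?_) h2
      exact Finset.insert_subset (Finset.mem_union_right _ her) Finset.subset_union_left

theorem lca_mono {q : ℕ} {At : Set (Fml p (Finset V))} {T : Fml p (Finset V) → DT V} {ρ ρ' : Finset (Finset V)}
    {ψ : Fml p (Finset V)} (h : LCa q At T ρ ψ) (hρ : ρ ⊆ ρ') (hpm : PM q ρ') :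
    LCa q At T ρ' ψ := by
  cases ψ with
  | var e => trivial
  | neg φ => exact h
  | and k f =>
    refine ⟨fun r hs => ?_, fun r hs ξ hξ τ hτ hp => ?_⟩
    · have hsp := hs.pm hpm
      obtain ⟨s', h1, h2⟩ := hs.restrict hpm ρ hρ
      obtain ⟨ξ, hξ, τ, hτ, hτs⟩ := h.1 s' h1
      have hsub : ρ' ∪ τ ⊆ r := by
        rw [h2]
        exact Finset.union_subset_union_right hτs
      exact ⟨ξ, hξ, ρ' ∪ τ, br_extend hτ ρ' hρ (hsp.mono hsub), hsub⟩
    · obtain ⟨s', h1, h2⟩ := hs.restrict hpm ρ hρ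
      obtain ⟨τ', h3, h4⟩ := hτ.restrict hpm ρ hρ
      refine h.2 s' h1 ξ hξ τ' h3 (hp.mono ?_)
      rw [h2, h4]
      intro x hx
      simp only [Finset.mem_union] at hx ⊢
      tauto
  | or k f =>
    refine ⟨fun r hs => ?_, fun r hs ξ hξ τ hτ hp => ?_⟩
    · have hsp := hs.pm hpm
      obtain ⟨s', h1, h2⟩ := hs.restrict hpm ρ hρ
      obtain ⟨ξ, hξ, τ, hτ, hτs⟩ := h.1 s' h1
      have hsub : ρ' ∪ τ ⊆ r := by
        rw [h2]
        exact Finset.union_subset_union_right hτs
      exact ⟨ξ, hξ, ρ' ∪ τ, br_extend hτ ρ' hρ (hsp.mono hsub), hsub⟩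
    · obtain ⟨s', h1, h2⟩ := hs.restrict hpm ρ hρ
      obtain ⟨τ', h3, h4⟩ := hτ.restrict hpm ρ hρ
      refine h.2 s' h1 ξ hξ τ' h3 (hp.mono ?_)
      rw [h2, h4]
      intro x hx
      simp only [Finset.mem_union] at hx ⊢
      tauto
  | mod i k f =>
    intro r b hr
    have hsp := hr.pm hpm
    obtain ⟨s', h1, h2⟩ := hr.restrict hpm ρ hρ
    obtain ⟨c, hc, hb⟩ := h s' b h1
    refine ⟨c, fun j => ?_, hb⟩
    obtain ⟨τ, hτ, hτs⟩ := hc j
    have hsub : ρ' ∪ τ ⊆ r := by
      rw [h2]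
      exact Finset.union_subset_union_right hτs
    exact ⟨ρ' ∪ τ, br_extend hτ ρ' hρ (hsp.mono hsub), hsub⟩

/-! ### Composition of trees -/

/-- Continue at the leaves. -/
def bind : DT V → (Bool → DT V) → DT V
  | .leaf b, K => K b
  | .node v c, K => .node v (fun e => bind (c e) K)

theorem bind_br {q : ℕ} (T : DT V) (K : Bool → DT V) :
    ∀ (m r : Finset (Finset V)) (b : Bool), Br q (bind T K) m r b →
      ∃ m₁ b₁, Br q T m m₁ b₁ ∧ Br q (K b₁) m₁ r b := by
  induction T with
  | leaf b' =>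
    intro m r b h
    exact ⟨m, b', Br.leaf _ _, h⟩
  | node v c ih =>
    intro m r b h
    rw [bind] at h
    cases h with
    | covered _ _ _ _ _ e he hv h =>
      obtain ⟨m₁, b₁, h1, h2⟩ := ih e m r b h
      exact ⟨m₁, b₁, Br.covered v c m m₁ b₁ e he hv h1, h2⟩
    | query _ _ _ _ _ e hv' hv hpm h =>
      obtain ⟨m₁, b₁, h1, h2⟩ := ih e (insert e m) r b h
      exact ⟨m₁, b₁, Br.query v c m m₁ b₁ e hv' hv hpm h1, h2⟩

theorem bind_reach {q : ℕ} (T : DT V) (K : Bool → DT V) :
    ∀ (m r : Finset (Finset V)), Reach q (bind T K) m r → Reach q T m r ∨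
      ∃ m₁ b₁, Br q T m m₁ b₁ ∧ Reach q (K b₁) m₁ r := by
  induction T with
  | leaf b' =>
    intro m r h
    exact Or.inr ⟨m, b', Br.leaf _ _, h⟩
  | node v c ih =>
    intro m r h
    rw [bind] at h
    cases h with
    | here => exact Or.inl (Reach.here _ _)
    | covered _ _ _ _ e he hv h =>
      rcases ih e m r h with h1 | ⟨m₁, b₁, h1, h2⟩
      · exact Or.inl (Reach.covered v c m r e he hv h1)
      · exact Or.inr ⟨m₁, b₁, Br.covered v c m m₁ b₁ e he hv h1, h2⟩
    | query _ _ _ _ e hv' hv hpm h =>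
      rcases ih e (insert e m) r h with h1 | ⟨m₁, b₁, h1, h2⟩
      · exact Or.inl (Reach.query v c m r e hv' hv hpm h1)
      · exact Or.inr ⟨m₁, b₁, Br.query v c m m₁ b₁ e hv' hv hpm h1, h2⟩

open Classical in
/-- Evaluate all the trees and count modulo `p`, starting from `a`. -/
noncomputable def countT (i : ZMod p) : (k : ℕ) → (Fin k → DT V) → ZMod p → DT V
  | 0, _, a => .leaf (decide (a = i))
  | k + 1, g, a => bind (g 0) (fun b =>
      countT i k (fun j => g j.succ) (a + (if b = true then 1 else 0)))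

theorem countT_br {q : ℕ} (i : ZMod p) {ρ : Finset (Finset V)} (k : ℕ) :
    ∀ (g : Fin k → DT V) (a : ZMod p) (m r : Finset (Finset V)) (b : Bool), ρ ⊆ m → PM q m →
      Br q (countT i k g a) m r b → ∃ c : Fin k → Bool,
        (∀ j, ∃ τ, Br q (g j) ρ τ (c j) ∧ τ ⊆ r) ∧
        (b = true ↔ a + (∑ j, (if c j = true then (1 : ZMod p) else 0)) = i) := by
  induction k with
  | zero =>
    intro g a m r b hρ hm h
    rw [countT] at h
    obtain ⟨h1, h2⟩ := h.leaf_inv
    refine ⟨Fin.elim0, fun j => j.elim0, ?_⟩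
    rw [← h2]
    simp
  | succ k ih =>
    intro g a m r b hρ hm h
    rw [countT] at h
    obtain ⟨m₁, b₁, h1, h2⟩ := bind_br _ _ m r b h
    have hm₁ := h1.pm hm
    obtain ⟨c, h3, h4⟩ := ih (fun j => g j.succ) _ m₁ r b (hρ.trans h1.subset) hm₁ h2
    obtain ⟨τ, h5, h6⟩ := h1.restrict hm ρ hρ
    refine ⟨Fin.cons b₁ c, fun j => ?_, ?_⟩
    · refine Fin.cases ?_ (fun j => ?_) j
      · refine ⟨τ, h5, ?_⟩
        have : τ ⊆ m₁ := by
          rw [h6]
          exact Finset.subset_union_right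
        exact this.trans h2.subset
      · rw [Fin.cons_succ]
        exact h3 j
    · rw [h4, Fin.sum_univ_succ, Fin.cons_zero, ← add_assoc]
      simp only [Fin.cons_succ]

theorem countT_dep {q t : ℕ} (i : ZMod p) {ρ : Finset (Finset V)} (k : ℕ) :
    ∀ (g : Fin k → DT V) (a : ZMod p) (m : Finset (Finset V)), ρ ⊆ m → PM q m →
      (∀ j, Dep q (g j) ρ t) → Dep q (countT i k g a) m (k * t) := by
  induction k with
  | zero =>
    intro g a m hρ hm hg r hr
    rw [countT] at hr
    rw [hr.leaf_inv]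
    simp
  | succ k ih =>
    intro g a m hρ hm hg r hr
    rw [countT] at hr
    have hd : Dep q (g 0) m t := (hg 0).mono hm hρ
    rcases bind_reach _ _ m r hr with h | ⟨m₁, b₁, h1, h2⟩
    · refine (hd r h).trans ?_
      rw [Nat.succ_mul]
      omega
    · have hm₁ := h1.pm hm
      have h3 := ih (fun j => g j.succ) (a + (if b₁ = true then 1 else 0)) m₁
        (hρ.trans h1.subset) hm₁ (fun j => hg j.succ) r h2
      have h4 := hd m₁ h1.reach
      have h5 : r \ m ⊆ (r \ m₁) ∪ (m₁ \ m) := by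
        intro e he
        rw [Finset.mem_sdiff] at he
        rw [Finset.mem_union, Finset.mem_sdiff, Finset.mem_sdiff]
        by_cases hem : e ∈ m₁
        · exact Or.inr ⟨hem, he.2⟩
        · exact Or.inl ⟨he.1, hem⟩
      have h6 := (Finset.card_le_card h5).trans (Finset.card_union_le _ _)
      rw [Nat.succ_mul]
      omega


/-! ### The stages -/

section stages

variable [Fintype V]

open Classical in
noncomputable def orFam (q : ℕ) (At : Set (Fml p (Finset V))) (T : Fml p (Finset V) → DT V) (b : Finset (Finset V))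
    (ψ : Fml p (Finset V)) : List (Finset (Finset V)) :=
  (Finset.univ.filter (fun m => ∃ ξ ∈ orL At ψ, Br q (T ξ) b m true)).toList

open Classical in
noncomputable def andFam (q : ℕ) (At : Set (Fml p (Finset V))) (T : Fml p (Finset V) → DT V) (b : Finset (Finset V))
    (ψ : Fml p (Finset V)) : List (Finset (Finset V)) :=
  (Finset.univ.filter (fun m => ∃ ξ ∈ andL At ψ, Br q (T ξ) b m false)).toList

theorem mem_orFam {q : ℕ} {At : Set (Fml p (Finset V))} {T : Fml p (Finset V) → DT V} {b : Finset (Finset V)}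
    {ψ : Fml p (Finset V)} {m : Finset (Finset V)} :
    m ∈ orFam q At T b ψ ↔ ∃ ξ ∈ orL At ψ, Br q (T ξ) b m true := by
  simp [orFam]

theorem mem_andFam {q : ℕ} {At : Set (Fml p (Finset V))} {T : Fml p (Finset V) → DT V} {b : Finset (Finset V)}
    {ψ : Fml p (Finset V)} {m : Finset (Finset V)} :
    m ∈ andFam q At T b ψ ↔ ∃ ξ ∈ andL At ψ, Br q (T ξ) b m false := by
  simp [andFam]

noncomputable def core (q : ℕ) (At : Set (Fml p (Finset V))) (h : ℕ) (T : Fml p (Finset V) → DT V) (b ρ : Finset (Finset V)) :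
    Fml p (Finset V) → DT V
  | .var _ => .leaf false
  | .neg φ => (if sdepth At φ < h then T φ else core q At h T b ρ φ).flip
  | .and k f => (canon q (andFam q At T b (.and k f)) (Fintype.card V + 1) ρ).flip
  | .or k f => canon q (orFam q At T b (.or k f)) (Fintype.card V + 1) ρ
  | .mod i k f => countT i k (fun j => T (f j)) 0

noncomputable def next (q : ℕ) (At : Set (Fml p (Finset V))) (h : ℕ) (T : Fml p (Finset V) → DT V) (b ρ : Finset (Finset V))
    (ψ : Fml p (Finset V)) : DT V :=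
  if sdepth At ψ < h then T ψ else core q At h T b ρ ψ

theorem next_lt {q : ℕ} {At : Set (Fml p (Finset V))} {h : ℕ} {T : Fml p (Finset V) → DT V} {b ρ : Finset (Finset V)}
    {ψ : Fml p (Finset V)} (hψ : sdepth At ψ < h) : next q At h T b ρ ψ = T ψ := if_pos hψ

theorem next_ge {q : ℕ} {At : Set (Fml p (Finset V))} {h : ℕ} {T : Fml p (Finset V) → DT V} {b ρ : Finset (Finset V)}
    {ψ : Fml p (Finset V)} (hψ : ¬ sdepth At ψ < h) :
    next q At h T b ρ ψ = core q At h T b ρ ψ :=
  if_neg hψ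

/-- One stage. -/
theorem stage {q w : ℕ} {At : Set (Fml p (Finset V))} (hA : Atomic At) (hq : 1 ≤ q)
    (T₀ : Fml p (Finset V) → DT V) (Γ : Finset (Fml p (Finset V)))
    (hΓ : ClosedS (Γ : Set (Fml p (Finset V))))
    (hfree : ∀ i k f, Fml.mod i k f ∈ Γ → Fml.mod i k f ∈ At ∨ k ≤ w)
    (h t t' u a j0 : ℕ) (hh : 1 ≤ h) (ht : q * j0 ≤ t') (htw : w * t ≤ t') (htt : t ≤ t')
    (b : Finset (Finset V)) (hb : PM q b) (T : Fml p (Finset V) → DT V)
    (hT : ∀ ψ ∈ Γ, sdepth At ψ < h → Dep q (T ψ) b t ∧ (sdepth At ψ = 0 → T ψ = T₀ ψ) ∧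
      (ψ ∉ At → LCa q At T b ψ))
    (hu : Fintype.card V - q * (b.card + a) ≤ u) (hu1 : 1 ≤ u) (ha : 0 < a)
    (hle : q * (b.card + a) ≤ Fintype.card V)
    (hbig : 4 * (t * (u ^ (q - 1)) ^ q) * u ^ q ≤ a) (hI : 2 * Γ.card < 2 ^ j0) :
    ∃ ρ, b ⊆ ρ ∧ PM q ρ ∧ ρ.card = b.card + a ∧
      ∃ T' : Fml p (Finset V) → DT V, ∀ ψ ∈ Γ, sdepth At ψ < h + 1 →
        Dep q (T' ψ) ρ t' ∧ (sdepth At ψ = 0 → T' ψ = T₀ ψ) ∧ (ψ ∉ At → LCa q At T' ρ ψ) := by
  classical
  set fam : Fml p (Finset V) → List (Finset (Finset V)) := fun ψ =>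
    if sdepth At ψ = h then (if ψ.isAnd then andFam q At T b ψ else
      if ψ.isOr then orFam q At T b ψ else []) else [] with hfam
  have hlarge : ∀ ψ : Fml p (Finset V), ¬ sdepth At ψ < h → ψ ∉ At := by
    intro ψ h1 h2
    rw [sdepth_at h2] at h1
    omega
  have hF : ∀ ψ ∈ Γ, ∀ τ ∈ fam ψ, (τ \ b).card ≤ t := by
    intro ψ hψ τ hτ
    simp only [hfam] at hτ
    split_ifs at hτ with h1 h2 h3
    · rw [mem_andFam] at hτ
      obtain ⟨ξ, hξ, hbr⟩ := hτ
      have h4 := (depth_andL hξ).1 ⟨h2, hlarge ψ (by omega)⟩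
      exact (hT ξ (closed_andL hΓ hψ hξ) (by omega)).1 τ hbr.reach
    · rw [mem_orFam] at hτ
      obtain ⟨ξ, hξ, hbr⟩ := hτ
      have h4 := (depth_orL hξ).1 ⟨h3, hlarge ψ (by omega)⟩
      exact (hT ξ (closed_orL hΓ hψ hξ) (by omega)).1 τ hbr.reach
    · simp at hτ
    · simp at hτ
  obtain ⟨ρ, hbρ, hρ, hρc, hgood⟩ := exists_good hq Γ fam b hb t u a j0 hF hu hu1 ha hle hbig hI
  refine ⟨ρ, hbρ, hρ, hρc, next q At h T b ρ, ?_⟩
  -- depth
  have hup : ∀ {T₀ : DT V}, Dep q T₀ b t → Dep q T₀ ρ t' := fun h1 r hr =>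
    ((h1.mono hρ hbρ) r hr).trans htt
  have hdep : ∀ ψ : Fml p (Finset V), ψ ∈ Γ → sdepth At ψ < h + 1 →
      Dep q (next q At h T b ρ ψ) ρ t' := by
    intro ψ
    induction ψ with
    | var e =>
      intro hψ hd
      have hlt : sdepth At (Fml.var e : Fml p (Finset V)) < h := by
        rw [sdepth]
        omega
      rw [next_lt hlt]
      exact hup (hT _ hψ hlt).1
    | neg φ ih =>
      intro hψ hd
      by_cases hlt : sdepth At (Fml.neg φ) < h
      · rw [next_lt hlt]
        exact hup (hT _ hψ hlt).1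
      · rw [next_ge hlt, core]
        have h1 := sdepth_le_neg hA φ
        exact (ih (hΓ.1 φ hψ) (by omega)).flip
    | and k f ih =>
      intro hψ hd
      by_cases hlt : sdepth At (Fml.and k f) < h
      · rw [next_lt hlt]
        exact hup (hT _ hψ hlt).1
      · rw [next_ge hlt, core]
        have h1 : Dep q (canon q (andFam q At T b (.and k f)) (Fintype.card V + 1) ρ).flip ρ
            (q * j0) := by
          apply Dep.flip
          apply canon_dep _ _ hρ
          intro j r hr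
          refine hgood _ hψ j r ?_
          have : fam (.and k f) = andFam q At T b (.and k f) := by
            simp only [hfam]
            rw [if_pos (by omega), if_pos (show (Fml.and k f).isAnd = true from rfl)]
          rw [this]
          exact hr
        exact fun r hr => (h1 r hr).trans ht
    | or k f ih =>
      intro hψ hd
      by_cases hlt : sdepth At (Fml.or k f) < h
      · rw [next_lt hlt]
        exact hup (hT _ hψ hlt).1
      · rw [next_ge hlt, core]
        have h1 : Dep q (canon q (orFam q At T b (.or k f)) (Fintype.card V + 1) ρ) ρ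
            (q * j0) := by
          apply canon_dep _ _ hρ
          intro j r hr
          refine hgood _ hψ j r ?_
          have : fam (.or k f) = orFam q At T b (.or k f) := by
            simp only [hfam]
            rw [if_pos (by omega), if_neg (by simp [Fml.isAnd]),
              if_pos (show (Fml.or k f).isOr = true from rfl)]
          rw [this]
          exact hr
        exact fun r hr => (h1 r hr).trans ht
    | mod i k f ih =>
      intro hψ hd
      by_cases hlt : sdepth At (Fml.mod i k f) < h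
      · rw [next_lt hlt]
        exact hup (hT _ hψ hlt).1
      · rw [next_ge hlt, core]
        have hns := hlarge _ hlt
        have hk : k ≤ w := (hfree i k f hψ).resolve_left hns
        have h1 : Dep q (countT i k (fun j => T (f j)) 0) ρ (k * t) := by
          refine countT_dep i k (fun j => T (f j)) 0 ρ hbρ hρ fun j => ?_
          have h2 := sdepth_lt_mod f j hns
          exact (hT (f j) (hΓ.2.2.2 i k f hψ j) (by omega)).1
        exact fun r hr => (h1 r hr).trans ((Nat.mul_le_mul_right t hk).trans htw)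
  intro ψ hψ hd
  refine ⟨hdep ψ hψ hd, fun h0 => ?_, fun hsm => ?_⟩
  · rw [next_lt (by omega)]
    exact (hT _ hψ (by omega)).2.1 h0
  -- local correctness
  cases ψ with
  | var e => trivial
  | neg φ =>
    by_cases hlt : sdepth At (Fml.neg φ) < h
    · have h1 := (hT _ hψ hlt).2.2 hsm
      have h2 := sdepth_le_neg hA φ
      rw [LCa] at h1 ⊢
      rw [next_lt hlt, next_lt (by omega), h1]
    · rw [LCa, next_ge hlt, core]
      rfl
  | and k f =>
    have h2 : ∀ ξ ∈ andL At (Fml.and k f), next q At h T b ρ ξ = T ξ := by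
      intro ξ hξ
      have := (depth_andL hξ).1 ⟨rfl, hsm⟩
      exact next_lt (by omega)
    by_cases hlt : sdepth At (Fml.and k f) < h
    · have h1 := lca_mono ((hT _ hψ hlt).2.2 hsm) hbρ hρ
      rw [LCa] at h1 ⊢
      rw [next_lt hlt]
      refine ⟨fun s hs => ?_, fun s hs ξ hξ τ hτ => ?_⟩
      · obtain ⟨ξ, hξ, τ, hτ, hτs⟩ := h1.1 s hs
        exact ⟨ξ, hξ, τ, by rw [h2 ξ hξ]; exact hτ, hτs⟩
      · rw [h2 ξ hξ] at hτ
        exact h1.2 s hs ξ hξ τ hτ
    · rw [LCa, next_ge hlt, core]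
      refine ⟨fun s hs => ?_, fun s hs ξ hξ τ hτ hp => ?_⟩
      · have hsp := hs.pm hρ
        rw [Br.flip_iff] at hs
        obtain ⟨τ, hτF, hτs⟩ := (canon_br hq _ _ ρ s _ hρ (by omega) hs).1 rfl
        rw [mem_andFam] at hτF
        obtain ⟨ξ, hξ, hτ⟩ := hτF
        have hρs := hs.subset
        have hsub : ρ ∪ τ ⊆ s := Finset.union_subset hρs hτs
        refine ⟨ξ, hξ, ρ ∪ τ, ?_, hsub⟩
        rw [h2 ξ hξ]
        exact br_extend hτ ρ hbρ (hsp.mono hsub)
      · rw [Br.flip_iff] at hs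
        rw [h2 ξ hξ] at hτ
        obtain ⟨τ', h3, h4⟩ := hτ.restrict hρ b hbρ
        refine (canon_br hq _ _ ρ s _ hρ (by omega) hs).2 rfl τ' ?_ (hp.mono ?_)
        · rw [mem_andFam]
          exact ⟨ξ, hξ, h3⟩
        · rw [h4]
          intro x hx
          simp only [Finset.mem_union] at hx ⊢
          tauto
  | or k f =>
    have h2 : ∀ ξ ∈ orL At (Fml.or k f), next q At h T b ρ ξ = T ξ := by
      intro ξ hξ
      have := (depth_orL hξ).1 ⟨rfl, hsm⟩
      exact next_lt (by omega)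
    by_cases hlt : sdepth At (Fml.or k f) < h
    · have h1 := lca_mono ((hT _ hψ hlt).2.2 hsm) hbρ hρ
      rw [LCa] at h1 ⊢
      rw [next_lt hlt]
      refine ⟨fun s hs => ?_, fun s hs ξ hξ τ hτ => ?_⟩
      · obtain ⟨ξ, hξ, τ, hτ, hτs⟩ := h1.1 s hs
        exact ⟨ξ, hξ, τ, by rw [h2 ξ hξ]; exact hτ, hτs⟩
      · rw [h2 ξ hξ] at hτ
        exact h1.2 s hs ξ hξ τ hτ
    · rw [LCa, next_ge hlt, core]
      refine ⟨fun s hs => ?_, fun s hs ξ hξ τ hτ hp => ?_⟩
      · have hsp := hs.pm hρ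
        obtain ⟨τ, hτF, hτs⟩ := (canon_br hq _ _ ρ s _ hρ (by omega) hs).1 rfl
        rw [mem_orFam] at hτF
        obtain ⟨ξ, hξ, hτ⟩ := hτF
        have hρs := hs.subset
        have hsub : ρ ∪ τ ⊆ s := Finset.union_subset hρs hτs
        refine ⟨ξ, hξ, ρ ∪ τ, ?_, hsub⟩
        rw [h2 ξ hξ]
        exact br_extend hτ ρ hbρ (hsp.mono hsub)
      · rw [h2 ξ hξ] at hτ
        obtain ⟨τ', h3, h4⟩ := hτ.restrict hρ b hbρ
        refine (canon_br hq _ _ ρ s _ hρ (by omega) hs).2 rfl τ' ?_ (hp.mono ?_)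
        · rw [mem_orFam]
          exact ⟨ξ, hξ, h3⟩
        · rw [h4]
          intro x hx
          simp only [Finset.mem_union] at hx ⊢
          tauto
  | mod i k f =>
    have h2 : ∀ j, next q At h T b ρ (f j) = T (f j) := by
      intro j
      have h3 := sdepth_lt_mod f j hsm
      exact next_lt (by omega)
    by_cases hlt : sdepth At (Fml.mod i k f) < h
    · have h1 := lca_mono ((hT _ hψ hlt).2.2 hsm) hbρ hρ
      rw [LCa] at h1 ⊢
      rw [next_lt hlt]
      intro r c hr
      obtain ⟨c, hc, hb⟩ := h1 r c hr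
      refine ⟨c, fun j => ?_, hb⟩
      rw [h2 j]
      exact hc j
    · rw [LCa, next_ge hlt, core]
      intro r c hr
      have hsp := hr.pm hρ
      obtain ⟨c, hc, hb⟩ := countT_br i k (fun j => T (f j)) 0 ρ r c hbρ hρ hr
      rw [zero_add] at hb
      refine ⟨c, fun j => ?_, hb⟩
      rw [h2 j]
      obtain ⟨τ, hτ, hτr⟩ := hc j
      have hsub : ρ ∪ τ ⊆ r := Finset.union_subset hr.subset hτr
      exact ⟨ρ ∪ τ, br_extend hτ ρ hbρ (hsp.mono hsub), hsub⟩

/-- All stages: `A h` is the number of sets after `h` stages, and `t h` is the depth of the trees. -/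
theorem all_stages {q w : ℕ} {At : Set (Fml p (Finset V))} (hA : Atomic At) (hq : 1 ≤ q) (Γ : Finset (Fml p (Finset V)))
    (hΓ : ClosedS (Γ : Set (Fml p (Finset V))))
    (hfree : ∀ i k f, Fml.mod i k f ∈ Γ → Fml.mod i k f ∈ At ∨ k ≤ w)
    (t : ℕ → ℕ) (j0 : ℕ) (ht : ∀ h, q * j0 ≤ t h) (htw : ∀ h, w * t h ≤ t (h + 1))
    (htt : ∀ h, t h ≤ t (h + 1)) (hI : 2 * Γ.card < 2 ^ j0)
    (A : ℕ → ℕ) (b₀ : Finset (Finset V)) (hb₀ : PM q b₀) (hbA : b₀.card = A 1)
    (T₀ : Fml p (Finset V) → DT V)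
    (hT₀ : ∀ ψ ∈ Γ, sdepth At ψ = 0 → Dep q (T₀ ψ) b₀ (t 1))
    (D : ℕ) (hlt : ∀ h < D, 1 ≤ h → A h < A (h + 1))
    (hle : ∀ h < D, 1 ≤ h → q * A (h + 1) < Fintype.card V)
    (hbig : ∀ h < D, 1 ≤ h → 4 * (t h * ((Fintype.card V - q * A (h + 1)) ^ (q - 1)) ^ q) *
      (Fintype.card V - q * A (h + 1)) ^ q ≤ A (h + 1) - A h) :
    ∀ h, 1 ≤ h → h ≤ D → ∃ ρ : Finset (Finset V), PM q ρ ∧ ρ.card = A h ∧
      ∃ T : Fml p (Finset V) → DT V, ∀ ψ ∈ Γ, sdepth At ψ < h →
        Dep q (T ψ) ρ (t h) ∧ (sdepth At ψ = 0 → T ψ = T₀ ψ) ∧ (ψ ∉ At → LCa q At T ρ ψ) := by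
  intro h h1
  induction h, h1 using Nat.le_induction with
  | base =>
    intro _
    refine ⟨b₀, hb₀, hbA, T₀, fun ψ hψ hd => ?_⟩
    have h0 : sdepth At ψ = 0 := by omega
    refine ⟨hT₀ ψ hψ h0, fun _ => rfl, fun hns => ?_⟩
    rcases sdepth_pos hA hns with ⟨x, rfl⟩ | h1
    · trivial
    · omega
  | succ h h1 ih =>
    intro hD
    obtain ⟨b, hb, hbc, T, hT⟩ := ih (by omega)
    have h3 := hlt h (by omega) h1
    have h2 : b.card + (A (h + 1) - A h) = A (h + 1) := by omega
    obtain ⟨ρ, -, hρ, hρc, T', hT'⟩ := stage hA hq T₀ Γ hΓ hfree h (t h) (t (h + 1))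
      (Fintype.card V - q * A (h + 1)) (A (h + 1) - A h) j0 h1 (ht _) (htw h) (htt h) b hb T hT
      (by rw [h2]) (by have := hle h (by omega) h1; omega) (by omega)
      (by rw [h2]; exact (hle h (by omega) h1).le) (hbig h (by omega) h1) hI
    exact ⟨ρ, hρ, by omega, T', hT'⟩


end stages

/-- **STG** -/
theorem t_STG : S_STG := by
  intro V _ _ p q w At Γ hq hA hΓ hfree t j0 ht htw htt hI A hA1 T₀ hT₀ D hlt hle hbig
  exact all_stages hA hq Γ hΓ hfree t j0 ht htw htt hI A ∅ (PM.empty q)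
    (by rw [hA1, Finset.card_empty]) T₀ hT₀ D hlt hle hbig

end Pool.Agent.L0h91.AS
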